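import Mathlib
import Pool.Agent.Helper34.Paint.Defs
import Pool.Agent.Helper34.Paint.Basic

set_option autoImplicit false

namespace Pool.Agent.Helper89.PA

open Finset Pool.Agent.Helper34.Paint

variable {V : Type} [Fintype V] [DecidableEq V]

theorem sup_step_eq (f : V → ℕ) (U C : Finset V) (hC : C ⊆ sup f)
    (h : (sup (step f U C)).card + C.card = (sup f).card) : sup (step f U C) = sup f \ C := by
  apply eq_of_subset_of_card_le (sup_step f U C)
  rw [card_sdiff_of_subset hC]
  omega

/-- `k` virtual presentations of the set `X` in a row: the replies are the classes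
`c v = 0, 1, ..., k - 1`. -/
theorem multi_feed (G : SimpleGraph V) (f : V → ℕ) (hf : Full G f) (X : Finset V)
    (hX : X ⊆ sup f) (k : ℕ) :
    ∃ c : V → ℕ, (∀ v w, c v = c w → c v < k → ¬ G.Adj v w) ∧ (∀ v, c v < k → v ∈ X) ∧
      (∀ j ≤ k, Full G (fun v => if c v < j then 0 else if v ∈ X then f v - j else f v)) ∧
      (∀ v ∈ X, ∀ j ≤ k, j ≤ c v → j < f v) := by
  induction k with
  | zero =>
    refine ⟨fun _ => 0, fun v w _ h => absurd h (lt_irrefl 0), fun v h => absurd h (lt_irrefl 0),
      ?_, ?_⟩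
    · intro j hj
      have hj0 : j = 0 := by omega
      subst hj0
      have : (fun v => if (0 : ℕ) < 0 then 0 else if v ∈ X then f v - 0 else f v) = f := by
        funext v
        simp
      rw [this]
      exact hf
    · intro v hv j hj _
      have := Pool.Agent.Helper34.Paint.mem_sup.1 (hX hv)
      omega
  | succ k ih =>
    obtain ⟨c, hc, hcX, hF, hlt⟩ := ih
    obtain ⟨fk, hfk⟩ : ∃ fk : V → ℕ, fk = fun v => if c v < k then 0 else
      if v ∈ X then f v - k else f v := ⟨_, rfl⟩
    obtain ⟨Y, hY⟩ : ∃ Y : Finset V, Y = X.filter (fun v => k ≤ c v) := ⟨_, rfl⟩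
    have hYm : ∀ v, v ∈ Y ↔ v ∈ X ∧ k ≤ c v := by
      intro v
      rw [hY, mem_filter]
    have hFk : Full G fk := by
      rw [hfk]
      exact hF k le_rfl
    have hYs : Y ⊆ sup fk := by
      intro v hv
      rw [hYm] at hv
      rw [Pool.Agent.Helper34.Paint.mem_sup, hfk]
      have h1 := hlt v hv.1 k le_rfl hv.2
      have h2 : ¬ c v < k := by omega
      simp only [h2, hv.1, if_true, if_false]
      omega
    obtain ⟨C, hC, hCi, hCF, hCc⟩ := hFk.reply Y hYs
    have hse := sup_step_eq fk Y C (hC.trans hYs) hCc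
    have hCX : ∀ v ∈ C, v ∈ X ∧ k ≤ c v := fun v hv => (hYm v).1 (hC hv)
    refine ⟨fun v => if v ∈ C then k else if c v < k then c v else k + 1, ?_, ?_, ?_, ?_⟩
    · intro v w hvw hv hadj
      by_cases h1 : v ∈ C
      · by_cases h2 : w ∈ C
        · exact hCi (by exact_mod_cast h1) (by exact_mod_cast h2) hadj.ne hadj
        · by_cases h3 : c w < k
          · simp only [h1, h2, h3, if_true, if_false] at hvw
            omega
          · simp only [h1, h2, h3, if_true, if_false] at hvw
            omega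
      · by_cases h4 : c v < k
        · by_cases h2 : w ∈ C
          · simp only [h1, h2, h4, if_true, if_false] at hvw
            omega
          · by_cases h3 : c w < k
            · simp only [h1, h2, h3, h4, if_true, if_false] at hvw
              exact hc v w hvw h4 hadj
            · simp only [h1, h2, h3, h4, if_true, if_false] at hvw
              omega
        · simp only [h1, h4, if_false] at hv
          omega
    · intro v hv
      by_cases h1 : v ∈ C
      · exact (hCX v h1).1
      · by_cases h4 : c v < k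
        · exact hcX v h4
        · simp only [h1, h4, if_false] at hv
          omega
    · intro j hj
      rcases Nat.lt_or_ge j (k + 1) with hj' | hj'
      · have : (fun v => if (if v ∈ C then k else if c v < k then c v else k + 1) < j then 0
            else if v ∈ X then f v - j else f v) =
            (fun v => if c v < j then 0 else if v ∈ X then f v - j else f v) := by
          funext v
          have hiff : ((if v ∈ C then k else if c v < k then c v else k + 1) < j) ↔ c v < j := by
            by_cases h1 : v ∈ C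
            · have := (hCX v h1).2
              simp only [h1, if_true]
              omega
            · by_cases h4 : c v < k
              · simp only [h1, h4, if_true, if_false]
              · simp only [h1, h4, if_false]
                omega
          simp only [hiff]
        rw [this]
        exact hF j (by omega)
      · have hjk : j = k + 1 := by omega
        subst hjk
        have : (fun v => if (if v ∈ C then k else if c v < k then c v else k + 1) < k + 1 then 0
            else if v ∈ X then f v - (k + 1) else f v) = step fk Y C := by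
          funext v
          unfold step
          rw [hfk]
          by_cases h1 : v ∈ C
          · simp [h1]
          · by_cases h4 : c v < k
            · have h5 : v ∉ Y := fun h => by have := ((hYm v).1 h).2; omega
              have h6 : c v < k + 1 := by omega
              simp only [h1, h4, h5, h6, if_true, if_false]
            · have h6 : ¬ k + 1 < k + 1 := lt_irrefl _
              by_cases h7 : v ∈ X
              · have h5 : v ∈ Y := (hYm v).2 ⟨h7, by omega⟩
                simp only [h1, h4, h5, h6, h7, if_true, if_false]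
                omega
              · have h5 : v ∉ Y := fun h => h7 ((hYm v).1 h).1
                simp only [h1, h4, h5, h6, h7, if_false]
        rw [this]
        exact hCF
    · intro v hv j hj hjc
      rcases Nat.lt_or_ge j (k + 1) with hj' | hj'
      · apply hlt v hv j (by omega)
        by_cases h1 : v ∈ C
        · have := (hCX v h1).2
          omega
        · by_cases h4 : c v < k
          · simp only [h1, h4, if_true, if_false] at hjc
            exact hjc
          · omega
      · have hjk : j = k + 1 := by omega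
        subst hjk
        by_cases h1 : v ∈ C
        · simp only [h1, if_true] at hjc
          omega
        · by_cases h4 : c v < k
          · simp only [h1, h4, if_true, if_false] at hjc
            omega
          · have h5 : v ∈ Y := (hYm v).2 ⟨hv, by omega⟩
            have h6 : v ∈ sup (step fk Y C) := by
              rw [hse, mem_sdiff]
              exact ⟨hYs h5, h1⟩
            rw [Pool.Agent.Helper34.Paint.mem_sup] at h6
            unfold step at h6
            rw [hfk] at h6
            simp only [h1, h4, h5, hv, if_true, if_false] at h6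
            omega

/-- The potential of a vertex with `a` virtual and `b` real presentations left. -/
noncomputable def pot (p : ℝ) (T : ℕ → ℕ → ℝ) (a b : ℕ) : ℝ := if a = 0 then 0 else p * T a b

theorem pot_le (p : ℝ) (T : ℕ → ℕ → ℝ) (hp : 0 ≤ p) (hT : ∀ a b, T a b ≤ 1) (a b : ℕ) :
    pot p T a b ≤ p := by
  unfold pot
  split_ifs
  · exact hp
  · have h := hT a b
    nlinarith

/-- The mixed reply with `m` or `m + 1` virtual presentations per round. -/
theorem val_multi (G : SimpleGraph V) (m : ℕ) (hm : 1 ≤ m) (δ p : ℝ) (T : ℕ → ℕ → ℝ)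
    (hδ0 : 0 ≤ δ) (hδ1 : δ ≤ 1) (hp : p * ((m : ℝ) + δ) = 1) (hT1 : ∀ a b, T a b ≤ 1)
    (hT0 : ∀ a, a ≠ 0 → T a 0 ≤ 0)
    (hT : ∀ k b, T (m + 1 + k) (b + 1) ≤ (1 - δ) * T (k + 1) b + δ * T k b) :
    ∀ (N : ℕ) (f g : V → ℕ), ∑ v, g v ≤ N → Full G f →
      ∑ v, pot p T (f v) (g v) ≤ (val G g : ℝ) := by
  have hm' : (1 : ℝ) ≤ (m : ℝ) := by exact_mod_cast hm
  have hp0 : 0 ≤ p := by
    by_contra h
    push Not at h
    have : p * ((m : ℝ) + δ) < 0 := mul_neg_of_neg_of_pos h (by linarith)
    linarith
  have hp1 : p ≤ 1 := by nlinarith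
  have hzero : ∀ f g : V → ℕ, (∀ v, g v = 0) →
      ∑ v, pot p T (f v) (g v) ≤ (val G g : ℝ) := by
    intro f g h0
    rw [val_zero G g h0]
    push_cast
    apply sum_nonpos
    intro v _
    unfold pot
    split_ifs with h
    · exact le_rfl
    · rw [h0 v]
      have := hT0 (f v) h
      nlinarith
  intro N
  induction N with
  | zero =>
    intro f g hN hF
    apply hzero
    intro v
    have h1 : g v ≤ ∑ v, g v := single_le_sum (f := g) (fun _ _ => Nat.zero_le _) (mem_univ v)
    omega
  | succ N ih =>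
    intro f g hN hF
    by_cases h0 : ∀ v, g v = 0
    · exact hzero f g h0
    push Not at h0
    obtain ⟨U, hU, hUf, hUC⟩ := val_offer G g h0
    obtain ⟨X, hXdef⟩ : ∃ X : Finset V, X = U.filter (fun v => v ∈ sup f) := ⟨_, rfl⟩
    have hXm : ∀ v, v ∈ X ↔ v ∈ U ∧ v ∈ sup f := by
      intro v
      rw [hXdef, mem_filter]
    have hXs : X ⊆ sup f := fun v hv => ((hXm v).1 hv).2
    obtain ⟨c, hc, hcX, hcF, hlt⟩ := multi_feed G f hF X hXs (m + 1)
    obtain ⟨f1, hf1⟩ : ∃ f1 : V → ℕ, f1 = fun v => if c v < m then 0 else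
      if v ∈ X then f v - m else f v := ⟨_, rfl⟩
    obtain ⟨f2, hf2⟩ : ∃ f2 : V → ℕ, f2 = fun v => if c v < m + 1 then 0 else
      if v ∈ X then f v - (m + 1) else f v := ⟨_, rfl⟩
    have hF1 : Full G f1 := by
      rw [hf1]
      exact hcF m (by omega)
    have hF2 : Full G f2 := by
      rw [hf2]
      exact hcF (m + 1) le_rfl
    obtain ⟨g', hg'⟩ : ∃ g' : V → ℕ, g' = fun v => if v ∈ U then g v - 1 else g v := ⟨_, rfl⟩
    obtain ⟨D, hD⟩ : ∃ D : ℕ → Finset V, D = fun j => univ.filter (fun v => c v = j) := ⟨_, rfl⟩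
    have hDm : ∀ j v, v ∈ D j ↔ c v = j := by
      intro j v
      rw [hD]
      simp
    have hDU : ∀ j < m + 1, D j ⊆ U := by
      intro j hj v hv
      rw [hDm] at hv
      exact ((hXm v).1 (hcX v (by omega))).1
    have hDi : ∀ j < m + 1, G.IsIndepSet (D j : Set V) := by
      intro j hj v hv w hw _
      rw [mem_coe, hDm] at hv hw
      exact hc v w (by omega) (by omega)
    -- the options
    have hopt : ∀ (h : V → ℕ), Full G h → ∀ j < m + 1, (∀ v, c v = j → h v = 0) →
        ((D j).card : ℝ) + ∑ v, pot p T (h v) (g' v) ≤ (val G g : ℝ) := by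
      intro h hh j hj hhj
      have h1 := ih h (step g U (D j)) (by
        have := step_sum_lt g U (D j) hU hUf
        omega) hh
      have h2 := hUC (D j) (hDU j hj) (hDi j hj)
      have h3 : ((D j).card : ℝ) + (val G (step g U (D j)) : ℝ) ≤ (val G g : ℝ) := by
        exact_mod_cast h2
      have h4 : ∑ v, pot p T (h v) (g' v) = ∑ v, pot p T (h v) (step g U (D j) v) := by
        apply sum_congr rfl
        intro v _
        by_cases h5 : c v = j
        · rw [hhj v h5]
          simp [pot]
        · have h6 : v ∉ D j := fun h => h5 ((hDm j v).1 h)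
          unfold step
          rw [hg']
          simp only [h6, if_false]
      rw [h4]
      linarith
    obtain ⟨Φ1, hΦ1⟩ : ∃ Φ1 : ℝ, Φ1 = ∑ v, pot p T (f1 v) (g' v) := ⟨_, rfl⟩
    obtain ⟨Φ2, hΦ2⟩ : ∃ Φ2 : ℝ, Φ2 = ∑ v, pot p T (f2 v) (g' v) := ⟨_, rfl⟩
    have ho1 : ∀ j < m, ((D j).card : ℝ) + Φ1 ≤ (val G g : ℝ) := by
      intro j hj
      rw [hΦ1]
      apply hopt f1 hF1 j (by omega)
      intro v hv
      rw [hf1]
      have : c v < m := by omega
      simp only [this, if_true]
    have ho2 : ∀ j < m + 1, ((D j).card : ℝ) + Φ2 ≤ (val G g : ℝ) := by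
      intro j hj
      rw [hΦ2]
      apply hopt f2 hF2 j hj
      intro v hv
      rw [hf2]
      have : c v < m + 1 := by omega
      simp only [this, if_true]
    -- sums over the first m classes
    have hS1 : (∑ j ∈ range m, ((D j).card : ℝ)) + (m : ℝ) * Φ1 ≤ (m : ℝ) * (val G g : ℝ) := by
      have := sum_le_sum (fun j (hj : j ∈ range m) => ho1 j (mem_range.1 hj))
      rw [sum_add_distrib, sum_const, sum_const, card_range, nsmul_eq_mul, nsmul_eq_mul] at this
      exact this
    have hS2 : (∑ j ∈ range m, ((D j).card : ℝ)) + (m : ℝ) * Φ2 ≤ (m : ℝ) * (val G g : ℝ) := by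
      have := sum_le_sum (fun j (hj : j ∈ range m) => ho2 j (by
        have := mem_range.1 hj
        omega))
      rw [sum_add_distrib, sum_const, sum_const, card_range, nsmul_eq_mul, nsmul_eq_mul] at this
      exact this
    have hS3 := ho2 m (by omega)
    -- the weighted average
    have hav : p * (∑ j ∈ range m, ((D j).card : ℝ)) + δ * p * ((D m).card : ℝ) +
        (1 - δ) * Φ1 + δ * Φ2 ≤ (val G g : ℝ) := by
      have hm0 : (0 : ℝ) < (m : ℝ) := by linarith
      have e1 := mul_le_mul_of_nonneg_left hS1 (show (0 : ℝ) ≤ (1 - δ) / m by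
        apply div_nonneg <;> linarith)
      have e2 := mul_le_mul_of_nonneg_left hS2 (show (0 : ℝ) ≤ δ * (1 - p) / m by
        apply div_nonneg
        · exact mul_nonneg hδ0 (by linarith)
        · linarith)
      have e3 := mul_le_mul_of_nonneg_left hS3 (show (0 : ℝ) ≤ δ * p by
        exact mul_nonneg hδ0 hp0)
      obtain ⟨S, hS⟩ : ∃ S : ℝ, S = ∑ j ∈ range m, ((D j).card : ℝ) := ⟨_, rfl⟩
      obtain ⟨W, hW⟩ : ∃ W : ℝ, W = (val G g : ℝ) := ⟨_, rfl⟩
      rw [← hS] at e1 e2 ⊢
      rw [← hW] at e1 e2 e3 ⊢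
      have k1 : (1 - δ) / m * (S + m * Φ1) = (1 - δ) / m * S + (1 - δ) * Φ1 := by
        field_simp
      have k2 : δ * (1 - p) / m * (S + m * Φ2) = δ * (1 - p) / m * S + δ * (1 - p) * Φ2 := by
        field_simp
      have k3 : (1 - δ) / m * (m * W) = (1 - δ) * W := by
        field_simp
      have k4 : δ * (1 - p) / m * (m * W) = δ * (1 - p) * W := by
        field_simp
      have k5 : (1 - δ) / m * S + δ * (1 - p) / m * S = p * S := by
        have : (1 - δ) / m + δ * (1 - p) / m = p := by
          rw [← add_div, div_eq_iff hm0.ne']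
          linarith
        rw [← add_mul, this]
      rw [k1, k3] at e1
      rw [k2, k4] at e2
      nlinarith [e1, e2, e3, k5]
    refine le_trans ?_ hav
    -- vertex by vertex
    have hA : (∑ j ∈ range m, ((D j).card : ℝ)) = ∑ v : V, (if c v < m then (1 : ℝ) else 0) := by
      have h1 : (univ.filter (fun v => c v < m)).card = ∑ j ∈ range m, (D j).card := by
        rw [card_eq_sum_card_fiberwise (f := c) (t := range m)]
        · apply sum_congr rfl
          intro j hj
          congr 1
          ext v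
          rw [mem_filter, mem_filter, hDm]
          have := mem_range.1 hj
          constructor
          · intro h
            exact h.2
          · intro h
            exact ⟨⟨mem_univ _, by omega⟩, h⟩
        · intro v hv
          simp only [coe_filter, mem_univ, true_and, Set.mem_ofPred_eq] at hv
          simpa using hv
      have h2 : ((univ.filter (fun v => c v < m)).card : ℝ) = ∑ j ∈ range m, ((D j).card : ℝ) := by
        rw [h1]
        push_cast
        rfl
      rw [← h2, card_filter]
      push_cast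
      rfl
    have hB : ((D m).card : ℝ) = ∑ v : V, (if c v = m then (1 : ℝ) else 0) := by
      rw [hD]
      simp only
      rw [card_filter]
      push_cast
      rfl
    rw [hA, hB, hΦ1, hΦ2, mul_sum, mul_sum, mul_sum, mul_sum, ← sum_add_distrib,
      ← sum_add_distrib, ← sum_add_distrib]
    apply sum_le_sum
    intro v _
    by_cases hvX : v ∈ X
    · have hvU : v ∈ U := ((hXm v).1 hvX).1
      have hfv : f v ≠ 0 := Pool.Agent.Helper34.Paint.mem_sup.1 ((hXm v).1 hvX).2
      have hgv : g v ≠ 0 := hUf v hvU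
      have hg1 : g v = g' v + 1 := by
        rw [hg']
        simp only [hvU, if_true]
        omega
      rcases Nat.lt_trichotomy (c v) m with hcm | hcm | hcm
      · have h1 : f1 v = 0 := by
          rw [hf1]
          simp only [hcm, if_true]
        have h2 : f2 v = 0 := by
          rw [hf2]
          have : c v < m + 1 := by omega
          simp only [this, if_true]
        have h3 : ¬ c v = m := by omega
        rw [h1, h2]
        simp only [hcm, h3, if_true, if_false, mul_one, mul_zero, add_zero]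
        have h4 := pot_le p T hp0 hT1 (f v) (g v)
        simpa [pot] using h4
      · have hfm := hlt v hvX m (by omega) (by omega)
        have h1 : f1 v = f v - m := by
          rw [hf1]
          have : ¬ c v < m := by omega
          simp only [this, hvX, if_true, if_false]
        have h2 : f2 v = 0 := by
          rw [hf2]
          have : c v < m + 1 := by omega
          simp only [this, if_true]
        obtain ⟨k, hk⟩ : ∃ k, f v = m + 1 + k := ⟨f v - (m + 1), by omega⟩
        have h5 : f v - m = k + 1 := by omega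
        rw [h1, h2, h5]
        simp only [hcm, lt_irrefl, if_true, if_false, mul_one, mul_zero, zero_add]
        simp only [pot, hfv, if_true, if_false, Nat.succ_ne_zero, mul_zero, add_zero]
        rw [hg1, hk]
        have e1 := hT k (g' v)
        have e2 := hT1 k (g' v)
        have e3 : δ * T k (g' v) ≤ δ := by nlinarith
        have e4 := mul_le_mul_of_nonneg_left (e1.trans (add_le_add_right e3 _)) hp0
        nlinarith [e4]
      · have hfm := hlt v hvX (m + 1) le_rfl (by omega)
        have h1 : f1 v = f v - m := by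
          rw [hf1]
          have : ¬ c v < m := by omega
          simp only [this, hvX, if_true, if_false]
        have h2 : f2 v = f v - (m + 1) := by
          rw [hf2]
          have : ¬ c v < m + 1 := by omega
          simp only [this, hvX, if_true, if_false]
        obtain ⟨k, hk⟩ : ∃ k, f v = m + 1 + (k + 1) := ⟨f v - (m + 2), by omega⟩
        have h5 : f v - m = k + 2 := by omega
        have h6 : f v - (m + 1) = k + 1 := by omega
        have h3 : ¬ c v < m := by omega
        have h4 : ¬ c v = m := by omega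
        rw [h1, h2, h5, h6]
        simp only [h3, h4, if_false, mul_zero, zero_add]
        simp only [pot, hfv, if_false, Nat.succ_ne_zero]
        rw [hg1, hk]
        have e1 := hT (k + 1) (g' v)
        have e4 := mul_le_mul_of_nonneg_left e1 hp0
        nlinarith [e4]
    · have h3 : ¬ c v < m + 1 := fun h => hvX (hcX v h)
      have h1 : ¬ c v < m := by omega
      have h2 : ¬ c v = m := by omega
      have e1 : f1 v = f v := by
        rw [hf1]
        simp only [h1, hvX, if_false]
      have e2 : f2 v = f v := by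
        rw [hf2]
        simp only [h3, hvX, if_false]
      rw [e1, e2]
      simp only [h1, h2, if_false, mul_zero, zero_add]
      by_cases h4 : f v = 0
      · simp [pot, h4]
      · have h5 : v ∉ U := fun h => hvX ((hXm v).2 ⟨h, Pool.Agent.Helper34.Paint.mem_sup.2 h4⟩)
        have h6 : g' v = g v := by
          rw [hg']
          simp only [h5, if_false]
        rw [h6]
        nlinarith

theorem exp_neg_le (h : ℝ) (hh : 0 ≤ h) : Real.exp (-h) ≤ 1 - (h - h ^ 2 / 2) := by
  have h1 := Real.quadratic_le_exp_of_nonneg hh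
  rw [Real.exp_neg]
  have h2 : 0 < Real.exp h := Real.exp_pos h
  rw [inv_le_comm₀ h2 (by nlinarith [sq_nonneg (h - 1)])]
  refine le_trans ?_ h1
  rw [inv_le_iff_one_le_mul₀ (by nlinarith [sq_nonneg (h - 1)])]
  nlinarith [sq_nonneg (h ^ 2), sq_nonneg h]

/-- The numerical form of the bound. -/
theorem bound_exp (G : SimpleGraph V) (s t : ℕ) (hG : Paintable G s) (ht : 1 ≤ t) (hts : t ≤ s)
    (e : ℝ) (he : 0 ≤ e) :
    (1 - Real.exp (-(e ^ 2 / (2 * min (t : ℝ) ((s : ℝ) - t + e))))) *
      ((t : ℝ) * (Fintype.card V : ℝ)) ≤ ((s : ℝ) + e) * (val G (fun _ => t) : ℝ) := by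
  have ht' : (1 : ℝ) ≤ (t : ℝ) := by exact_mod_cast ht
  have hts' : (t : ℝ) ≤ (s : ℝ) := by exact_mod_cast hts
  have ht0 : (0 : ℝ) < (t : ℝ) := by linarith
  obtain ⟨K, hK⟩ : ∃ K : ℝ, K = min (t : ℝ) ((s : ℝ) - t + e) := ⟨_, rfl⟩
  rw [← hK]
  have hK0 : 0 ≤ K := by
    rw [hK]
    exact le_min (by linarith) (by linarith)
  obtain ⟨μ, hμ⟩ : ∃ μ : ℝ, μ = ((s : ℝ) + e) / t := ⟨_, rfl⟩
  have hμ1 : 1 ≤ μ := by
    rw [hμ, le_div_iff₀ ht0]
    linarith
  have hμt : (t : ℝ) * μ = (s : ℝ) + e := by
    rw [hμ]
    field_simp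
  obtain ⟨m, hm⟩ : ∃ m : ℕ, m = ⌊μ⌋₊ := ⟨_, rfl⟩
  have hm1 : 1 ≤ m := by
    rw [hm]
    exact (Nat.one_le_floor_iff μ).2 hμ1
  have hm1' : (1 : ℝ) ≤ (m : ℝ) := by exact_mod_cast hm1
  have hmle : (m : ℝ) ≤ μ := by
    rw [hm]
    exact Nat.floor_le (by linarith)
  have hmlt : μ < (m : ℝ) + 1 := by
    rw [hm]
    exact Nat.lt_floor_add_one μ
  obtain ⟨δ, hδ⟩ : ∃ δ : ℝ, δ = μ - m := ⟨_, rfl⟩
  have hδ0 : 0 ≤ δ := by linarith
  have hδ1 : δ ≤ 1 := by linarith
  have htδ : (t : ℝ) * δ ≤ K := by
    rw [hK]
    apply le_min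
    · nlinarith
    · have : (t : ℝ) * δ = (s : ℝ) + e - t * m := by
        rw [hδ, mul_sub, hμt]
      rw [this]
      nlinarith
  obtain ⟨h, hh⟩ : ∃ h : ℝ, h = e / K := ⟨_, rfl⟩
  have hh0 : 0 ≤ h := by
    rw [hh]
    exact div_nonneg he hK0
  obtain ⟨x, hx⟩ : ∃ x : ℝ, x = Real.exp h := ⟨_, rfl⟩
  have hx1 : 1 ≤ x := by
    rw [hx]
    exact Real.one_le_exp hh0
  have hx0 : 0 < x := by linarith
  obtain ⟨y, hy⟩ : ∃ y : ℝ, y = ((1 - δ) * x + δ) / x ^ (m + 1) := ⟨_, rfl⟩
  have hy0 : 0 ≤ y := by
    rw [hy]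
    apply div_nonneg _ (by positivity)
    have : 0 ≤ (1 - δ) * x := mul_nonneg (by linarith) hx0.le
    linarith
  have hyx : y * x ^ (m + 1) = (1 - δ) * x + δ := by
    rw [hy]
    field_simp
  have hp : (1 / μ) * ((m : ℝ) + δ) = 1 := by
    have : (m : ℝ) + δ = μ := by linarith
    rw [this]
    field_simp
  have hT : ∀ k b : ℕ, (1 - x ^ (m + 1 + k) * y ^ (b + 1)) ≤
      (1 - δ) * (1 - x ^ (k + 1) * y ^ b) + δ * (1 - x ^ k * y ^ b) := by
    intro k b
    have e1 : x ^ (m + 1 + k) * y ^ (b + 1) =
        (1 - δ) * (x ^ (k + 1) * y ^ b) + δ * (x ^ k * y ^ b) := by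
      calc x ^ (m + 1 + k) * y ^ (b + 1) = (y * x ^ (m + 1)) * (x ^ k * y ^ b) := by ring
        _ = ((1 - δ) * x + δ) * (x ^ k * y ^ b) := by rw [hyx]
        _ = _ := by ring
    rw [e1]
    linarith
  have hmain := val_multi G m hm1 δ (1 / μ) (fun a b => 1 - x ^ a * y ^ b) hδ0 hδ1 hp
    (fun a b => by
      have : 0 ≤ x ^ a * y ^ b := by positivity
      show 1 - x ^ a * y ^ b ≤ 1
      linarith)
    (fun a _ => by
      have : 1 ≤ x ^ a := one_le_pow₀ hx1
      show 1 - x ^ a * y ^ 0 ≤ 0
      rw [pow_zero, mul_one]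
      linarith) hT _ (fun _ => s) (fun _ => t) le_rfl (full_of_paintable G s hG)
  have hs0 : s ≠ 0 := by omega
  rw [sum_const, nsmul_eq_mul, card_univ] at hmain
  have hpot : pot (1 / μ) (fun a b => 1 - x ^ a * y ^ b) s t =
      1 / μ * (1 - x ^ s * y ^ t) := by
    unfold pot
    rw [if_neg hs0]
  rw [hpot] at hmain
  -- x ^ s * y ^ t ≤ exp (-(e^2/(2K)))
  have hyle : y ≤ Real.exp (-(m : ℝ) * h - δ * (h - h ^ 2 / 2)) := by
    have h1 : y = Real.exp (-(m : ℝ) * h) * ((1 - δ) + δ * Real.exp (-h)) := by
      rw [hy, hx, ← Real.exp_nat_mul]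
      push_cast
      rw [div_eq_iff (Real.exp_pos _).ne']
      have e1 : Real.exp (-(m : ℝ) * h) * Real.exp (((m : ℝ) + 1) * h) = Real.exp h := by
        rw [← Real.exp_add]
        congr 1
        ring
      have e2 : Real.exp (-h) * Real.exp h = 1 := by
        rw [← Real.exp_add]
        simp
      calc (1 - δ) * Real.exp h + δ = (1 - δ + δ * Real.exp (-h)) * Real.exp h := by
            linear_combination (-δ) * e2
        _ = (1 - δ + δ * Real.exp (-h)) *
            (Real.exp (-(m : ℝ) * h) * Real.exp (((m : ℝ) + 1) * h)) := by rw [e1]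
        _ = _ := by ring
    rw [h1, sub_eq_add_neg (-(m : ℝ) * h), Real.exp_add]
    apply mul_le_mul_of_nonneg_left _ (Real.exp_pos _).le
    have h2 := exp_neg_le h hh0
    have h3 : 1 - δ * (h - h ^ 2 / 2) ≤ Real.exp (-(δ * (h - h ^ 2 / 2))) :=
      Real.one_sub_le_exp_neg _
    have h4 := mul_le_mul_of_nonneg_left h2 hδ0
    linarith
  have hψ : x ^ s * y ^ t ≤ Real.exp (-(e ^ 2 / (2 * K))) := by
    calc x ^ s * y ^ t ≤ x ^ s * (Real.exp (-(m : ℝ) * h - δ * (h - h ^ 2 / 2))) ^ t := by
          apply mul_le_mul_of_nonneg_left _ (by positivity)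
          exact pow_le_pow_left₀ hy0 hyle t
      _ = Real.exp (-(h * e) + t * δ * h ^ 2 / 2) := by
          rw [hx, ← Real.exp_nat_mul, ← Real.exp_nat_mul, ← Real.exp_add]
          congr 1
          have : (t : ℝ) * ((m : ℝ) + δ) = (s : ℝ) + e := by
            rw [show (m : ℝ) + δ = μ by linarith, hμt]
          linear_combination (-h) * this
      _ ≤ Real.exp (-(e ^ 2 / (2 * K))) := by
          apply Real.exp_le_exp.2
          rcases hK0.eq_or_lt with h0 | h0
          · rw [← h0] at hh htδ ⊢
            rw [div_zero] at hh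
            rw [hh]
            simp
          · have h1 : (t : ℝ) * δ * h ^ 2 / 2 ≤ K * h ^ 2 / 2 := by
              have := mul_le_mul_of_nonneg_right htδ (sq_nonneg h)
              linarith
            have h2 : h * K = e := by
              rw [hh]
              field_simp
            have h3 : e ^ 2 / (2 * K) = h * e - K * h ^ 2 / 2 := by
              rw [← h2]
              field_simp
              ring
            rw [h3]
            linarith
  have hn0 : (0 : ℝ) ≤ (Fintype.card V : ℝ) := Nat.cast_nonneg _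
  have h1 : (1 - Real.exp (-(e ^ 2 / (2 * K)))) * (Fintype.card V : ℝ) ≤
      μ * (val G (fun _ => t) : ℝ) := by
    have h2 : (Fintype.card V : ℝ) * (1 - x ^ s * y ^ t) ≤ μ * (val G (fun _ => t) : ℝ) := by
      have h3 := mul_le_mul_of_nonneg_left hmain (show 0 ≤ μ by linarith)
      have h4 : μ * ((Fintype.card V : ℝ) * (1 / μ * (1 - x ^ s * y ^ t))) =
          (Fintype.card V : ℝ) * (1 - x ^ s * y ^ t) := by
        field_simp
      rw [h4] at h3
      exact h3
    refine le_trans ?_ h2
    nlinarith
  calc (1 - Real.exp (-(e ^ 2 / (2 * K)))) * ((t : ℝ) * (Fintype.card V : ℝ)) =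
        t * ((1 - Real.exp (-(e ^ 2 / (2 * K)))) * (Fintype.card V : ℝ)) := by ring
    _ ≤ t * (μ * (val G (fun _ => t) : ℝ)) := mul_le_mul_of_nonneg_left h1 ht0.le
    _ = ((s : ℝ) + e) * (val G (fun _ => t) : ℝ) := by
        rw [← hμt]
        ring

/-- Pascal's rule for binomial expectations. -/
theorem binom_step (δ : ℝ) (b : ℕ) (F : ℕ → ℝ) :
    ∑ i ∈ range (b + 2), ((b + 1).choose i : ℝ) * δ ^ i * (1 - δ) ^ (b + 1 - i) * F i =
      (1 - δ) * ∑ i ∈ range (b + 1), (b.choose i : ℝ) * δ ^ i * (1 - δ) ^ (b - i) * F i +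
      δ * ∑ i ∈ range (b + 1), (b.choose i : ℝ) * δ ^ i * (1 - δ) ^ (b - i) * F (i + 1) := by
  rw [sum_range_succ']
  have h1 : ∀ i ∈ range (b + 1), ((b + 1).choose (i + 1) : ℝ) * δ ^ (i + 1) *
      (1 - δ) ^ (b + 1 - (i + 1)) * F (i + 1) =
      δ * ((b.choose i : ℝ) * δ ^ i * (1 - δ) ^ (b - i) * F (i + 1)) +
      (b.choose (i + 1) : ℝ) * δ ^ (i + 1) * (1 - δ) ^ (b - i) * F (i + 1) := by
    intro i _
    rw [Nat.choose_succ_succ, show b + 1 - (i + 1) = b - i by omega]
    push_cast
    ring
  rw [sum_congr rfl h1, sum_add_distrib, ← mul_sum]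
  have h2 : ∑ i ∈ range (b + 1), (b.choose (i + 1) : ℝ) * δ ^ (i + 1) * (1 - δ) ^ (b - i) *
      F (i + 1) = (1 - δ) * ∑ i ∈ range b, (b.choose (i + 1) : ℝ) * δ ^ (i + 1) *
      (1 - δ) ^ (b - (i + 1)) * F (i + 1) := by
    rw [sum_range_succ, Nat.choose_succ_self, mul_sum]
    simp only [Nat.cast_zero, zero_mul, add_zero]
    apply sum_congr rfl
    intro i hi
    have hi' := mem_range.1 hi
    rw [show b - i = (b - (i + 1)) + 1 by omega, pow_succ]
    ring
  rw [h2, sum_range_succ' (fun i => (b.choose i : ℝ) * δ ^ i * (1 - δ) ^ (b - i) * F i) b]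
  simp only [Nat.choose_zero_right, Nat.cast_one, pow_zero, Nat.sub_zero, one_mul, mul_one]
  rw [pow_succ]
  ring

/-- The probability that `m * b` plus a binomial variable with parameters `b` and `δ` is at
least `a`. -/
noncomputable def tail (m : ℕ) (δ : ℝ) (a b : ℕ) : ℝ :=
  ∑ i ∈ range (b + 1), (b.choose i : ℝ) * δ ^ i * (1 - δ) ^ (b - i) *
    (if a ≤ m * b + i then 1 else 0)

theorem tail_succ (m : ℕ) (δ : ℝ) (k b : ℕ) :
    tail m δ (m + 1 + k) (b + 1) = (1 - δ) * tail m δ (k + 1) b + δ * tail m δ k b := by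
  unfold tail
  rw [binom_step δ b (fun i => if m + 1 + k ≤ m * (b + 1) + i then 1 else 0)]
  have h1 : ∀ i, (m + 1 + k ≤ m * (b + 1) + i) ↔ (k + 1 ≤ m * b + i) := by
    intro i
    rw [mul_add, mul_one]
    omega
  have h2 : ∀ i, (k + 1 ≤ m * b + (i + 1)) ↔ (k ≤ m * b + i) := by
    intro i
    omega
  simp only [h1, h2]

theorem tail_zero (m : ℕ) (δ : ℝ) (a : ℕ) (ha : a ≠ 0) : tail m δ a 0 = 0 := by
  unfold tail
  simp [ha]

theorem tail_le_one (m : ℕ) (δ : ℝ) (hδ0 : 0 ≤ δ) (hδ1 : δ ≤ 1) (a b : ℕ) :
    tail m δ a b ≤ 1 := by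
  have h1 : ∑ i ∈ range (b + 1), (b.choose i : ℝ) * δ ^ i * (1 - δ) ^ (b - i) = 1 := by
    have h := add_pow δ (1 - δ) b
    rw [show δ + (1 - δ) = 1 by ring, one_pow] at h
    refine Eq.trans ?_ h.symm
    apply sum_congr rfl
    intro i _
    ring
  have h3 : tail m δ a b ≤ ∑ i ∈ range (b + 1), (b.choose i : ℝ) * δ ^ i * (1 - δ) ^ (b - i) := by
    unfold tail
    apply sum_le_sum
    intro i _
    have h2 : 0 ≤ (b.choose i : ℝ) * δ ^ i * (1 - δ) ^ (b - i) := by
      have : 0 ≤ 1 - δ := by linarith
      positivity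
    split_ifs
    · rw [mul_one]
    · rw [mul_zero]
      exact h2
  rw [h1] at h3
  exact h3

/-- The bound with the exact binomial tail. -/
theorem bound_tail (G : SimpleGraph V) (s t : ℕ) (hG : Paintable G s) (hs : 1 ≤ s)
    (m : ℕ) (hm : 1 ≤ m) (δ : ℝ) (hδ0 : 0 ≤ δ) (hδ1 : δ ≤ 1) :
    tail m δ s t * (Fintype.card V : ℝ) ≤ ((m : ℝ) + δ) * (val G (fun _ => t) : ℝ) := by
  have hm' : (1 : ℝ) ≤ (m : ℝ) := by exact_mod_cast hm
  have hp : (1 / ((m : ℝ) + δ)) * ((m : ℝ) + δ) = 1 := by
    have : (m : ℝ) + δ ≠ 0 := by linarith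
    field_simp
  have hmain := val_multi G m hm δ (1 / ((m : ℝ) + δ)) (tail m δ) hδ0 hδ1 hp
    (tail_le_one m δ hδ0 hδ1) (fun a ha => (tail_zero m δ a ha).le)
    (fun k b => (tail_succ m δ k b).le) _ (fun _ => s) (fun _ => t) le_rfl
    (full_of_paintable G s hG)
  have hs0 : s ≠ 0 := by omega
  rw [sum_const, nsmul_eq_mul, card_univ] at hmain
  unfold pot at hmain
  rw [if_neg hs0] at hmain
  have h3 := mul_le_mul_of_nonneg_left hmain (show 0 ≤ (m : ℝ) + δ by linarith)
  refine le_trans (le_of_eq ?_) h3
  have : (m : ℝ) + δ ≠ 0 := by linarith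
  field_simp

end Pool.Agent.Helper89.PA
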